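import Pool.Agent.K1H27.PL.Stm2
import Pool.Agent.K1H38.PL.SEL

/-! Project PL of helper27: a local determinant (LOCD). -/

set_option autoImplicit false

namespace Pool.Agent.K1H69.PL

open Set Metric Filter Topology
open Pool.Agent.K1H27.PL (S_LOCD)
open Pool.Agent.K1H38.PL (isUnit_of_swap)

theorem det_diff {n : ℕ} {G : ℂ → Matrix (Fin n) (Fin n) ℂ} {z : ℂ}
    (h : ∀ i j, DifferentiableAt ℂ (fun w => G w i j) z) :
    DifferentiableAt ℂ (fun w => (G w).det) z := by
  simp only [Matrix.det_apply]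
  refine DifferentiableAt.fun_sum fun τ _ => ?_
  refine DifferentiableAt.const_smul ?_ _
  refine DifferentiableAt.fun_finsetProd fun i _ => h _ _

theorem t_LOCD : S_LOCD := by
  intro E _ _ _ W₀ σ z₀ H a b T A F B hW₀ hz₀ hH ha hb hF hn hσ
  let H1 : ℂ → (E →L[ℂ] E) := fun z => H z - a z * F * b z
  have hH1c : ContinuousOn H1 W₀ := hH.sub ((ha.mul continuousOn_const).mul hb)
  let W : Set ℂ := W₀ ∩ H1 ⁻¹' (ball 0 1)
  have hWo : IsOpen W := hH1c.isOpen_inter_preimage hW₀ isOpen_ball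
  have hWn : ∀ z ∈ W, ‖H1 z‖ < 1 := fun z hz => by simpa using hz.2
  have hW0 : z₀ ∈ W := ⟨hz₀, by simpa using hn⟩
  have hu : ∀ z ∈ W, IsUnit (1 - H1 z) := fun z hz => ⟨Units.oneSub (H1 z) (hWn z hz), rfl⟩
  let T1 : ℂ → (E →L[ℂ] E) := fun z => Ring.inverse (1 - H1 z)
  have hBT : ∀ z ∈ W, ∀ x, T1 z x - H1 z (T1 z x) = x := by
    intro z hz x
    have h1 := Ring.mul_inverse_cancel (1 - H1 z) (hu z hz)
    exact congrArg (fun L : E →L[ℂ] E => L x) h1
  have hTB : ∀ z ∈ W, ∀ x, T1 z (x - H1 z x) = x := by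
    intro z hz x
    have h1 := Ring.inverse_mul_cancel (1 - H1 z) (hu z hz)
    exact congrArg (fun L : E →L[ℂ] E => L x) h1
  have hTc : ContinuousOn T1 W := by
    intro z hz
    have h1 : ContinuousAt (Ring.inverse : (E →L[ℂ] E) → (E →L[ℂ] E)) (1 - H1 z) := by
      obtain ⟨u, hu⟩ := hu z hz
      rw [← hu]
      exact NormedRing.inverse_continuousAt u
    have h2 : ContinuousWithinAt (fun z => 1 - H1 z) W z :=
      continuousWithinAt_const.sub ((hH1c z hz.1).mono inter_subset_left)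
    exact ContinuousAt.comp_continuousWithinAt (g := Ring.inverse) (f := fun z => 1 - H1 z) h1 h2
  -- the finite dimensional space
  let Y : Submodule ℂ E := LinearMap.range (F : E →ₗ[ℂ] E)
  have : FiniteDimensional ℂ Y := hF
  let n : ℕ := Module.finrank ℂ Y
  let e : Y ≃L[ℂ] (Fin n → ℂ) := (Module.finBasis ℂ Y).equivFunL
  let F' : E →L[ℂ] Y := F.codRestrict Y fun x => ⟨x, rfl⟩
  let J0 : (Fin n → ℂ) →L[ℂ] E := Y.subtypeL.comp (e.symm : (Fin n → ℂ) →L[ℂ] Y)
  let K0 : E →L[ℂ] (Fin n → ℂ) := (e : Y →L[ℂ] (Fin n → ℂ)).comp F'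
  have hJK : ∀ x, J0 (K0 x) = F x := by
    intro x
    show ((e.symm (e (F' x)) : Y) : E) = F x
    rw [e.symm_apply_apply]
    rfl
  let J : ℂ → ((Fin n → ℂ) →L[ℂ] E) := fun z => (T1 z).comp ((a z).comp J0)
  let K : ℂ → (E →L[ℂ] (Fin n → ℂ)) := fun z => K0.comp (b z)
  let D : ℂ → ((Fin n → ℂ) →L[ℂ] (Fin n → ℂ)) := fun z => (K z).comp (J z)
  let M : ℂ → Matrix (Fin n) (Fin n) ℂ := fun z =>
    1 - LinearMap.toMatrix' ((D z : (Fin n → ℂ) →L[ℂ] (Fin n → ℂ)) : (Fin n → ℂ) →ₗ[ℂ] (Fin n → ℂ))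
  have hMv : ∀ z v, (M z).mulVec v = v - D z v := by
    intro z v
    show (1 - LinearMap.toMatrix' _ : Matrix (Fin n) (Fin n) ℂ).mulVec v = _
    rw [Matrix.sub_mulVec, Matrix.one_mulVec]
    congr 1
    exact LinearMap.toMatrix'_mulVec _ v
  have hMe : ∀ z i j, M z i j = (1 : Matrix (Fin n) (Fin n) ℂ) i j -
      K0 (b z (T1 z (a z (J0 (Pi.single j 1))))) i := by
    intro z i j
    show (1 : Matrix (Fin n) (Fin n) ℂ) i j - LinearMap.toMatrix' _ i j = _
    rw [LinearMap.toMatrix'_apply]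
    rfl
  have hMc : ContinuousOn M W := by
    refine continuousOn_pi.2 fun i => continuousOn_pi.2 fun j => ?_
    simp_rw [hMe]
    have hb' : ContinuousOn b W := hb.mono inter_subset_left
    have ha' : ContinuousOn a W := ha.mono inter_subset_left
    have h2 : ContinuousOn (fun z => b z (T1 z (a z (J0 (Pi.single j 1))))) W :=
      hb'.clm_apply (hTc.clm_apply (ha'.clm_apply continuousOn_const))
    have h3 : Continuous fun x : E => K0 x i := (continuous_apply i).comp K0.continuous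
    exact continuousOn_const.sub (h3.comp_continuousOn h2)
  -- the equivalence
  have e2 : ∀ z ∈ W, (1 - H z : E →L[ℂ] E) = (1 - H1 z) * (1 - (J z).comp (K z)) := by
    intro z hz
    ext x
    show x - H z x = (x - T1 z (a z (J0 (K0 (b z x))))) -
      H1 z (x - T1 z (a z (J0 (K0 (b z x)))))
    rw [map_sub, hJK]
    have h1 := hBT z hz (a z (F (b z x)))
    have h2 : H1 z x = H z x - a z (F (b z x)) := rfl
    have h3 : H1 z (T1 z (a z (F (b z x)))) = T1 z (a z (F (b z x))) - a z (F (b z x)) := by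
      rw [eq_sub_iff_add_eq, add_comm, ← eq_sub_iff_add_eq]
      exact h1.symm
    rw [h3, h2]
    abel
  have hiff : ∀ z ∈ W, ((M z).det = 0 ↔ ¬ IsUnit (1 - H z)) := by
    intro z hz
    constructor
    · intro hd hunit
      obtain ⟨y, hy0, hy⟩ := Matrix.exists_mulVec_eq_zero_iff.2 hd
      rw [hMv] at hy
      have hy1 : y = K z (J z y) := sub_eq_zero.1 hy
      have hun : IsUnit (1 - (J z).comp (K z) : E →L[ℂ] E) := by
        rw [e2 z hz] at hunit
        obtain ⟨u, hu⟩ := hu z hz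
        rw [← hu] at hunit
        exact (Units.isUnit_units_mul u _).1 hunit
      obtain ⟨w, hw⟩ := hun
      have h1 : (1 - (J z).comp (K z) : E →L[ℂ] E) (J z y) = 0 := by
        show J z y - J z (K z (J z y)) = 0
        rw [← hy1, sub_self]
      have h2 : J z y = 0 := by
        have h3 := congrArg (fun L : E →L[ℂ] E => L (J z y)) w.inv_mul
        have h4 : (w⁻¹ : (E →L[ℂ] E)ˣ).1 (w.1 (J z y)) = J z y := h3
        rw [hw, h1, map_zero] at h4
        exact h4.symm
      apply hy0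
      rw [hy1, h2, map_zero]
    · intro hnu
      by_contra hne
      apply hnu
      have hu' : IsUnit (M z).det := isUnit_iff_ne_zero.2 hne
      let S : (Fin n → ℂ) →L[ℂ] (Fin n → ℂ) :=
        LinearMap.toContinuousLinearMap (Matrix.mulVecLin ((M z)⁻¹))
      have hS : ∀ v, S v = ((M z)⁻¹).mulVec v := fun v => rfl
      have key : IsUnit (1 - (J z).comp (K z) : E →L[ℂ] E) := by
        refine isUnit_of_swap (J z) (K z) S (fun v => ?_) (fun v => ?_)
        · have h1 := hMv z (S v)
          have h2 : (M z).mulVec (S v) = v := by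
            rw [hS, Matrix.mulVec_mulVec, Matrix.mul_nonsing_inv _ hu', Matrix.one_mulVec]
          rw [h2] at h1
          exact h1.symm
        · have h1 := hMv z v
          have h2 : v - K z (J z v) = (M z).mulVec v := h1.symm
          rw [h2, hS, Matrix.mulVec_mulVec, Matrix.nonsing_inv_mul _ hu', Matrix.one_mulVec]
      rw [e2 z hz]
      exact (hu z hz).mul key
  refine ⟨W, fun z => (M z).det, hWo, hW0, inter_subset_left, ?_, ?_, hiff⟩
  · exact (Continuous.matrix_det continuous_id).comp_continuousOn hMc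
  · let G : ℂ → Matrix (Fin n) (Fin n) ℂ := fun z => Matrix.of fun i j =>
      (1 : Matrix (Fin n) (Fin n) ℂ) i j -
        K0 (B (Ring.inverse (z • (1 : E →L[ℂ] E) - T) (A (J0 (Pi.single j 1))))) i
    have hun : ∀ z ∈ W \ σ, IsUnit (z • (1 : E →L[ℂ] E) - T) ∧
        ∀ x, b z (T1 z (a z x)) = B (Ring.inverse (z • (1 : E →L[ℂ] E) - T) (A x)) := by
      rintro z ⟨hz, hzσ⟩
      obtain ⟨α, β, hα, hβ, haz, hbz, he⟩ := hσ z hz.1 hzσ
      have hw : IsUnit (α * (z • (1 : E →L[ℂ] E) - T) * β) := by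
        rw [he]; exact hu z hz
      have h1 : IsUnit (z • (1 : E →L[ℂ] E) - T) := by
        obtain ⟨β', rfl⟩ := hβ
        obtain ⟨α', rfl⟩ := hα
        exact (Units.isUnit_units_mul α' _).1 ((Units.isUnit_mul_units _ β').1 hw)
      refine ⟨h1, fun x => ?_⟩
      have h2 : β * T1 z * α * (z • (1 : E →L[ℂ] E) - T) = 1 := by
        obtain ⟨β', rfl⟩ := hβ
        have h3 : (β' : E →L[ℂ] E) * T1 z * α * (z • (1 : E →L[ℂ] E) - T) * β' = 1 * β' := by
          have h4 : (β' : E →L[ℂ] E) * T1 z * α * (z • (1 : E →L[ℂ] E) - T) * β' =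
              β' * (T1 z * (α * (z • (1 : E →L[ℂ] E) - T) * β')) := by
            simp only [mul_assoc]
          rw [h4, he]
          have h5 : T1 z * (1 - H1 z) = 1 := Ring.inverse_mul_cancel (1 - H1 z) (hu z hz)
          show (β' : E →L[ℂ] E) * (T1 z * (1 - H1 z)) = _
          rw [h5, mul_one, one_mul]
        exact β'.mul_left_inj.1 h3
      have h3 : β * T1 z * α = Ring.inverse (z • (1 : E →L[ℂ] E) - T) := by
        have h4 := congrArg (fun L : E →L[ℂ] E => L * Ring.inverse (z • (1 : E →L[ℂ] E) - T)) h2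
        simp only [one_mul] at h4
        rw [mul_assoc, Ring.mul_inverse_cancel _ h1, mul_one] at h4
        exact h4
      rw [← h3, haz, hbz]
      rfl
    have hGd : DifferentiableOn ℂ (fun z => (G z).det) (W \ σ) := by
      intro z hz
      apply DifferentiableAt.differentiableWithinAt
      apply det_diff
      intro i j
      show DifferentiableAt ℂ (fun w => (1 : Matrix (Fin n) (Fin n) ℂ) i j -
        K0 (B (Ring.inverse (w • (1 : E →L[ℂ] E) - T) (A (J0 (Pi.single j 1))))) i) z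
      refine (differentiableAt_const _).sub ?_
      have h1 : DifferentiableAt ℂ (fun w : ℂ => w • (1 : E →L[ℂ] E) - T) z :=
        (differentiableAt_id.smul_const _).sub_const _
      have h2 : DifferentiableAt ℂ (Ring.inverse : (E →L[ℂ] E) → (E →L[ℂ] E))
          (z • (1 : E →L[ℂ] E) - T) := differentiableAt_inverse (hun z hz).1
      have h3 : DifferentiableAt ℂ (fun w : ℂ => Ring.inverse (w • (1 : E →L[ℂ] E) - T)) z :=
        DifferentiableAt.comp (g := (Ring.inverse : (E →L[ℂ] E) → (E →L[ℂ] E)))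
          (f := fun w : ℂ => w • (1 : E →L[ℂ] E) - T) z h2 h1
      have h4 : DifferentiableAt ℂ (fun w : ℂ =>
          Ring.inverse (w • (1 : E →L[ℂ] E) - T) (A (J0 (Pi.single j 1)))) z :=
        h3.clm_apply (differentiableAt_const _)
      have h5 := ((ContinuousLinearMap.proj (R := ℂ) (φ := fun _ : Fin n => ℂ) i).comp
        (K0.comp B)).differentiableAt.comp z h4
      exact h5
    refine hGd.congr fun z hz => ?_
    have : M z = G z := by
      ext i j
      rw [hMe, (hun z hz).2]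
      rfl
    show (M z).det = (G z).det
    rw [this]

end Pool.Agent.K1H69.PL
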